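import Pool.Agent.Q230.IP.Asm
import Pool.Agent.Q230.IP.FmW

set_option autoImplicit false

/-!
# ISOLATED-POINT-EXISTENCE is `∃∀ℝ`-complete

`IsoPointL` is the problem as posed: the input is a dimension `d` (in unary) and a quantifier-free
formula of the language `(0, 1, +, ·, <, =)` in the variables `x_0, …, x_{d-1}` (a string in
reverse Polish notation), and the question is whether the set of its solutions in `ℝ^d` has an
isolated point.  `IsoPoint` is the same problem for Boolean combinations of equations and
inequalities between explicit integer polynomials (lists of monomials with coefficients in binary).

Idea of the proof of hardness.  A sentence `∃ x ∀ y` is translated into an instance of a max-min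
problem `max_x min_v F(p; x, v)` for a polynomial `F` with hierarchically chosen rational
parameters `p` (iterated squares of `2` and their inverses): `F` is large at the maximum if the
sentence is true and small otherwise.  For such `p` all Karush-Kuhn-Tucker systems of the max-min
problem have only finitely many solutions.  The solutions of these systems are the base points of
the set, and a cone of the test points `w` with `F(p; x, w) < K` is attached to each of them (by
projective coordinates of the test point), so that a base point is isolated if and only if
`min_w F(p; x, w) ≥ K`.
-/

namespace Pool.Agent.Results.MP_47d501_lc.IsolatedPointComplete

open Pool.Agent.NPC Pool.Agent.NPC.ER Pool.Agent.NPC.Q230IP Pool.Agent.Q230.IP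

/-- Deciding whether a semialgebraic set has an isolated point is `∃∀ℝ`-complete. -/
theorem result : EARComplete (lang IsoPointL) ∧ EARComplete (lang IsoPoint) :=
  both' main_all pin_all red_all

end Pool.Agent.Results.MP_47d501_lc.IsolatedPointComplete
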